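import Pool.Agent.W_MP_c8d476_an.Final

/-!
# Regularity of CR maps between Levi-cone manifolds of equal CR dimension fails

For every `k ∈ {2, 3, …, ∞}` the regularity assertion of Q1 is false, whatever the relation between
the real dimensions `d₁`, `d₂` is, and even for compact manifolds.
-/

namespace Pool.Agent.Results.MP_c8d476_an.NoRegularity

open Pool.Agent.W_MP_c8d476_an

theorem result : ∀ k : ℕ∞, 2 ≤ k → ∀ o : Ordering, ¬ RegularityAssertion k o := by
  intro k hk o
  cases o with
  | lt => exact case_lt hk
  | eq => exact case_eq hk
  | gt => exact case_gt hk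

end Pool.Agent.Results.MP_c8d476_an.NoRegularity
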